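import Mathlib
import Pool.Agent.H86.KZ.Few

/-! The growth form of the Eisenbud-Green-Harris statement for homogeneous ideals which are, in the
given degree, not much larger than the ideal of the regular sequence. -/

set_option autoImplicit false

namespace Pool.Agent.Results.MP_237e17_al.FewForms

/-- **Theorem.** Let `K` be a field, `r ≤ n`, `3 ≤ n`, and let `I` be a homogeneous ideal of
`K[x_1, ..., x_n]` which contains a regular sequence `f_1, ..., f_r` of forms of degrees
`2 ≤ a_1 ≤ ... ≤ a_r`. Put `F = (f_1, ..., f_r)` and `s_j = (a_1 - 1) + ... + (a_j - 1)`. Suppose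
that `dim I_m = dim F_m + k`, that `s_j < m` and `k ≤ n - j` for some `j ≤ r`, and that `j = r` or
`m + k ≤ s_(j+1)`. Then there is a lex ideal `J` such that the lex-plus-powers ideal
`L = (x_1 ^ a_1, ..., x_r ^ a_r) + J` satisfies `dim L_m = dim I_m` and
`dim L_(m+1) ≤ dim I_(m+1)`. -/
theorem result (K : Type) [Field K] (n r : ℕ) (hr : r ≤ n) (h3 : 3 ≤ n)
    (I : Ideal (MvPolynomial (Fin n) K)) (f : Fin r → MvPolynomial (Fin n) K) (a : Fin r → ℕ)
    (hI : ∀ p ∈ I, ∀ d : ℕ, MvPolynomial.homogeneousComponent d p ∈ I)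
    (hmono : Monotone a) (ha : ∀ i, 2 ≤ a i) (hf : ∀ i, (f i).IsHomogeneous (a i))
    (hfI : ∀ i, f i ∈ I)
    (hreg : RingTheory.Sequence.IsRegular (MvPolynomial (Fin n) K) (List.ofFn f))
    (m k j : ℕ) (hj : j ≤ r) (hk : j + k ≤ n)
    (hm1 : (∑ t : Fin r, if (t : ℕ) < j then a t - 1 else 0) < m)
    (hm2 : j = r ∨ m + k ≤ ∑ t : Fin r, if (t : ℕ) < j + 1 then a t - 1 else 0)
    (hdim : Module.finrank K
        ↥(MvPolynomial.homogeneousSubmodule (Fin n) K m ⊓ Submodule.restrictScalars K I) =
      Module.finrank K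
        ↥(MvPolynomial.homogeneousSubmodule (Fin n) K m ⊓
          Submodule.restrictScalars K (Ideal.span (Set.range f))) + k) :
    ∃ J : Ideal (MvPolynomial (Fin n) K),
      (∀ p ∈ J, ∀ s ∈ p.support, MvPolynomial.monomial s (1 : K) ∈ J) ∧
      (∀ s t : Fin n →₀ ℕ, s.degree = t.degree →
          MvPolynomial.monomial s (1 : K) ∈ J →
          (MonomialOrder.lex : MonomialOrder (Fin n)).toSyn s ≤
            (MonomialOrder.lex : MonomialOrder (Fin n)).toSyn t →
          MvPolynomial.monomial t (1 : K) ∈ J) ∧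
      Module.finrank K
          ↥(MvPolynomial.homogeneousSubmodule (Fin n) K m ⊓
              Submodule.restrictScalars K
                (Ideal.span (Set.range fun i : Fin r => MvPolynomial.X (Fin.castLE hr i) ^ a i)
                  ⊔ J)) =
        Module.finrank K
          ↥(MvPolynomial.homogeneousSubmodule (Fin n) K m ⊓ Submodule.restrictScalars K I) ∧
      Module.finrank K
          ↥(MvPolynomial.homogeneousSubmodule (Fin n) K (m + 1) ⊓
              Submodule.restrictScalars K
                (Ideal.span (Set.range fun i : Fin r => MvPolynomial.X (Fin.castLE hr i) ^ a i)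
                  ⊔ J)) ≤
        Module.finrank K
          ↥(MvPolynomial.homogeneousSubmodule (Fin n) K (m + 1) ⊓
            Submodule.restrictScalars K I) :=
  (Pool.KZ.few K n r hr I f a hI hmono ha hf hfI hreg).2 h3 m k j hj hk hm1 hm2 hdim

end Pool.Agent.Results.MP_237e17_al.FewForms
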