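import Mathlib
import Pool.Agent.H45.EG5.Main

/-! The Eisenbud-Green-Harris statement for homogeneous ideals which contain a regular sequence
of forms, in any number of variables and over any field, when the forms which are not products of
linear forms over the algebraic closure are: three forms of any degrees (or at most six quadrics)
and further forms whose degrees grow fast. -/

set_option autoImplicit false

namespace Pool.Agent.Results.MP_237e17_al.SplitOrFast

/-- **Theorem.** Let `K` be a field, `r ≤ n`, and let `I` be a homogeneous ideal of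
`K[x_1, ..., x_n]` which contains a regular sequence `f_1, ..., f_r` of forms of degrees
`2 ≤ a_1 ≤ ... ≤ a_r`. Let `S` be a set of at least three indices such that
* for `j` not in `S` the form `f_j` is a product of linear forms over the algebraic closure;
* for every `j` in `S` which has at least three smaller elements in `S`, either `a_j` is at least
  the sum of the `a_i - 1` over the `i < j` in `S`, or `a_j = 2` and `j` has at most five smaller
  elements in `S`.
Then there is a lex ideal `J` such that `(x_1 ^ a_1, ..., x_r ^ a_r) + J` and `I` have the same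
Hilbert function. -/
theorem result (K : Type) [Field K] (n r : ℕ) (hr : r ≤ n)
    (I : Ideal (MvPolynomial (Fin n) K)) (f : Fin r → MvPolynomial (Fin n) K) (a : Fin r → ℕ)
    (S : Finset (Fin r)) (hS : 3 ≤ S.card)
    (hI : ∀ p ∈ I, ∀ d : ℕ, MvPolynomial.homogeneousComponent d p ∈ I)
    (hmono : Monotone a) (ha : ∀ i, 2 ≤ a i)
    (hf : ∀ i, (f i).IsHomogeneous (a i)) (hfI : ∀ i, f i ∈ I)
    (hreg : RingTheory.Sequence.IsRegular (MvPolynomial (Fin n) K) (List.ofFn f))
    (hsplit : ∀ j ∉ S, ∃ g : Fin (a j) → MvPolynomial (Fin n) (AlgebraicClosure K),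
      (∀ i, (g i).IsHomogeneous 1) ∧
        MvPolynomial.map (algebraMap K (AlgebraicClosure K)) (f j) = ∏ i, g i)
    (hfast : ∀ j ∈ S, 3 ≤ (S.filter (fun i => i < j)).card →
      (∑ i ∈ S.filter (fun i => i < j), (a i - 1)) ≤ a j ∨
        (a j = 2 ∧ (S.filter (fun i => i < j)).card ≤ 5)) :
    ∃ J : Ideal (MvPolynomial (Fin n) K),
      (∀ p ∈ J, ∀ s ∈ p.support, MvPolynomial.monomial s (1 : K) ∈ J) ∧
      (∀ s t : Fin n →₀ ℕ, s.degree = t.degree →
          MvPolynomial.monomial s (1 : K) ∈ J →
          (MonomialOrder.lex : MonomialOrder (Fin n)).toSyn s ≤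
            (MonomialOrder.lex : MonomialOrder (Fin n)).toSyn t →
          MvPolynomial.monomial t (1 : K) ∈ J) ∧
      ∀ d : ℕ,
        Module.finrank K
          ↥(MvPolynomial.homogeneousSubmodule (Fin n) K d ⊓ Submodule.restrictScalars K I) =
        Module.finrank K
          ↥(MvPolynomial.homogeneousSubmodule (Fin n) K d ⊓
              Submodule.restrictScalars K
                (Ideal.span (Set.range fun i : Fin r => MvPolynomial.X (Fin.castLE hr i) ^ a i)
                  ⊔ J)) :=
  Pool.EG5.main5 K n r hr I f a S hS hI hmono ha hf hfI hreg hsplit hfast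

end Pool.Agent.Results.MP_237e17_al.SplitOrFast
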